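import Pool.Agent.Q165.VN.Stm

/-!
# Job VN-LOWER: the exponent is at least one
-/

set_option autoImplicit false

namespace Pool.Agent.Q154.VN

open MeasureTheory Pool.Agent.Q165.VN

theorem lower_card {d : ℕ} {α v C : ℝ} (hd : 0 < d) (hv : 0 < v)
    (h : ∀ ε : ℝ, 0 < ε → ε ≤ 1 →
      ∀ (ι : Type) [Fintype ι] [Nonempty ι] (F : ι → Set (Fin d → ℝ)),
        (∀ i, Convex ℝ (F i)) → (∀ i, volume (F i) = 1) →
        ∃ S : Finset (Set (Fin d → ℝ)), IsNet F ε v S ∧ (S.card : ℝ) ≤ C * ε ^ (-α))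
    (N : ℕ) (hN : 0 < N) : (N : ℝ) ≤ C * (N : ℝ) ^ α := by
  have : Nonempty (Fin N) := ⟨⟨0, hN⟩⟩
  have hNR : (0 : ℝ) < N := by exact_mod_cast hN
  have hN1 : (1 : ℝ) ≤ N := by exact_mod_cast hN
  let F : Fin N → Set (Fin d → ℝ) :=
    fun i => Set.Icc (fun _ => 2 * ((i : ℕ) : ℝ)) (fun _ => 2 * ((i : ℕ) : ℝ) + 1)
  obtain ⟨S, ⟨hvol, hnet⟩, hcard⟩ := h (1 / N) (by positivity)
    (by rw [div_le_one hNR]; exact hN1) (Fin N) F (fun i => convex_Icc _ _) (by
      intro i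
      simp only [F]
      rw [Real.volume_Icc_pi]
      simp)
  have hsel : ∀ i : Fin N, ∃ s ∈ S, s ⊆ F i := by
    intro i
    obtain ⟨s, hs, hsub⟩ := hnet {i} (by
      rw [Fintype.card_fin, Finset.card_singleton, one_div, inv_mul_cancel₀ hNR.ne']
      norm_num)
    refine ⟨s, hs, ?_⟩
    have hU : (⋃ j ∈ ({i} : Finset (Fin N)), F j) = F i := by simp
    rw [hU, (convex_Icc _ _).convexHull_eq] at hsub
    exact hsub
  choose s hs hsF using hsel
  have hne : ∀ i, (s i).Nonempty := by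
    intro i
    by_contra hcon
    rw [Set.not_nonempty_iff_eq_empty] at hcon
    have := hvol (s i) (hs i)
    rw [hcon, measure_empty] at this
    have h2 : (0 : ENNReal) < ENNReal.ofReal v := ENNReal.ofReal_pos.2 hv
    rw [← this] at h2
    exact lt_irrefl _ h2
  have hinj : Function.Injective s := by
    intro i j hij
    obtain ⟨x, hx⟩ := hne i
    have hxi := hsF i hx
    rw [hij] at hx
    have hxj := hsF j hx
    have hi1 := hxi.1 ⟨0, hd⟩
    have hi2 := hxi.2 ⟨0, hd⟩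
    have hj1 := hxj.1 ⟨0, hd⟩
    have hj2 := hxj.2 ⟨0, hd⟩
    simp only at hi1 hi2 hj1 hj2
    have h1 : (2 : ℝ) * ((i : ℕ) : ℝ) < 2 * ((j : ℕ) : ℝ) + 2 := by linarith
    have h2 : (2 : ℝ) * ((j : ℕ) : ℝ) < 2 * ((i : ℕ) : ℝ) + 2 := by linarith
    have h3 : (i : ℕ) < (j : ℕ) + 1 := by
      have : ((i : ℕ) : ℝ) < ((j : ℕ) : ℝ) + 1 := by linarith
      exact_mod_cast this
    have h4 : (j : ℕ) < (i : ℕ) + 1 := by
      have : ((j : ℕ) : ℝ) < ((i : ℕ) : ℝ) + 1 := by linarith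
      exact_mod_cast this
    apply Fin.ext
    omega
  have hle : N ≤ S.card := by
    have := Finset.card_le_card_of_injOn (s := (Finset.univ : Finset (Fin N))) (t := S) s
      (fun i _ => hs i) (fun i _ j _ hij => hinj hij)
    simpa using this
  have hle' : (N : ℝ) ≤ S.card := by exact_mod_cast hle
  have hpow : ((1 : ℝ) / N) ^ (-α) = (N : ℝ) ^ α := by
    rw [one_div, Real.inv_rpow hNR.le, Real.rpow_neg hNR.le, inv_inv]
  rw [hpow] at hcard
  linarith

theorem lower : Pool.Agent.Q165.VN.S_LOWER := by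
  intro d α hd hadm
  obtain ⟨v, C, hv, h⟩ := hadm
  by_contra hα
  rw [not_le] at hα
  have key := lower_card (α := α) (v := v) (C := C) hd hv h
  have ht : Filter.Tendsto (fun n : ℕ => ((n : ℝ)) ^ (1 - α)) Filter.atTop Filter.atTop :=
    (tendsto_rpow_atTop (by linarith)).comp tendsto_natCast_atTop_atTop
  obtain ⟨N, hN⟩ := ((ht.eventually_gt_atTop C).and (Filter.eventually_gt_atTop 0)).exists
  have hNR : (0 : ℝ) < N := by exact_mod_cast hN.2
  have h1 := key N hN.2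
  have h2 : (N : ℝ) = (N : ℝ) ^ (1 - α) * (N : ℝ) ^ α := by
    rw [← Real.rpow_add hNR]
    simp
  have h3 : (0 : ℝ) < (N : ℝ) ^ α := Real.rpow_pos_of_pos hNR _
  have h4 : C * (N : ℝ) ^ α < (N : ℝ) ^ (1 - α) * (N : ℝ) ^ α :=
    mul_lt_mul_of_pos_right hN.1 h3
  linarith

end Pool.Agent.Q154.VN
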