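import Pool.Agent.Q165.VN.Stm

/-!
# Job VN-VOL: area of the cells
-/

set_option autoImplicit false

namespace Pool.Agent.Q154.VN

open MeasureTheory Pool.Agent.Q165.VN

theorem vol : Pool.Agent.Q165.VN.S_VOL := by
  intro m p0 κ0 Z u v hZ
  have hmeas : MeasurableSet (cell m p0 κ0 Z u v) := by
    unfold cell
    refine (IsClosed.measurableSet ?_)
    have h1 : IsClosed {q : ℝ × ℝ | u ≤ Z * (100 * (q.1 - m))} :=
      isClosed_le (by fun_prop) (by fun_prop)
    have h2 : IsClosed {q : ℝ × ℝ | Z * (100 * (q.1 - m)) ≤ u + 1 / 300} :=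
      isClosed_le (by fun_prop) (by fun_prop)
    have h3 : IsClosed {q : ℝ × ℝ | v ≤ (q.2 - p0 - κ0 * (100 * (q.1 - m))) / Z} :=
      isClosed_le (by fun_prop) (by fun_prop)
    have h4 : IsClosed {q : ℝ × ℝ | (q.2 - p0 - κ0 * (100 * (q.1 - m))) / Z ≤ v + 1 / 300} :=
      isClosed_le (by fun_prop) (by fun_prop)
    exact h1.inter (h2.inter (h3.inter h4))
  rw [Measure.volume_eq_prod, Measure.prod_apply hmeas]
  have hslice : ∀ x : ℝ, volume (Prod.mk x ⁻¹' cell m p0 κ0 Z u v)
      = (Set.Icc (m + u / (100 * Z)) (m + u / (100 * Z) + 1 / (30000 * Z))).indicator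
          (fun _ => ENNReal.ofReal (Z / 300)) x := by
    intro x
    have e1 : u ≤ Z * (100 * (x - m)) ↔ m + u / (100 * Z) ≤ x := by
      have : u / (100 * Z) ≤ x - m ↔ u ≤ (x - m) * (100 * Z) := div_le_iff₀ (by positivity)
      constructor
      · intro h
        have := this.2 (by linarith)
        linarith
      · intro h
        have := this.1 (by linarith)
        linarith
    have e2 : Z * (100 * (x - m)) ≤ u + 1 / 300 ↔ x ≤ m + u / (100 * Z) + 1 / (30000 * Z) := by
      have h0 : u / (100 * Z) + 1 / (30000 * Z) = (u + 1 / 300) / (100 * Z) := by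
        field_simp
        ring
      have : x - m ≤ (u + 1 / 300) / (100 * Z) ↔ (x - m) * (100 * Z) ≤ u + 1 / 300 :=
        le_div_iff₀ (by positivity)
      constructor
      · intro h
        have := this.2 (by linarith)
        linarith
      · intro h
        have := this.1 (by linarith)
        linarith
    by_cases hx : x ∈ Set.Icc (m + u / (100 * Z)) (m + u / (100 * Z) + 1 / (30000 * Z))
    · rw [Set.indicator_of_mem hx]
      have hset : Prod.mk x ⁻¹' cell m p0 κ0 Z u v
          = Set.Icc (p0 + κ0 * (100 * (x - m)) + Z * v)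
              (p0 + κ0 * (100 * (x - m)) + Z * v + Z / 300) := by
        ext y
        simp only [cell, Set.mem_preimage, Set.mem_Icc]
        constructor
        · rintro ⟨_, _, h3, h4⟩
          rw [le_div_iff₀ hZ] at h3
          rw [div_le_iff₀ hZ] at h4
          constructor <;> nlinarith
        · rintro ⟨h3, h4⟩
          refine ⟨e1.2 hx.1, e2.2 hx.2, ?_, ?_⟩
          · rw [le_div_iff₀ hZ]
            nlinarith
          · rw [div_le_iff₀ hZ]
            nlinarith
      rw [hset, Real.volume_Icc]
      congr 1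
      ring
    · rw [Set.indicator_of_notMem hx]
      have hset : Prod.mk x ⁻¹' cell m p0 κ0 Z u v = ∅ := by
        ext y
        simp only [cell, Set.mem_preimage, Set.mem_empty_iff_false, iff_false]
        rintro ⟨h1, h2, _, _⟩
        exact hx ⟨e1.1 h1, e2.1 h2⟩
      rw [hset, measure_empty]
  rw [lintegral_congr hslice, lintegral_indicator measurableSet_Icc, lintegral_const,
    Measure.restrict_apply MeasurableSet.univ, Set.univ_inter, Real.volume_Icc,
    ← ENNReal.ofReal_mul (by positivity)]
  congr 1
  field_simp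
  ring

end Pool.Agent.Q154.VN
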